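import Pool.Agent.Q216.ER.A8

/-!
# Disjoint rank versus essential rank

For every field `F`, all finite sets `Q₁, Q₂` of natural numbers and every matrix
`A : Q₁ × Q₂ → F` we prove `erk A ≤ 2 * drk A`.
-/

set_option autoImplicit false

namespace Pool.Agent.Results.MP_852b03_co.DisjointRank

open Module

/-- `V` is supported in the diagonal positions `(x, x)`, `x ∈ Q₁ ∩ Q₂`. -/
def DiagSupported {F : Type*} [Field F] {Q₁ Q₂ : Finset ℕ} (V : Matrix Q₁ Q₂ F) : Prop :=
  ∀ (x : Q₁) (y : Q₂), (x : ℕ) ≠ (y : ℕ) → V x y = 0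

/-- The essential rank: the minimum of the ranks of `A + V`, over all `V` supported in the
diagonal positions. -/
noncomputable def erk {F : Type*} [Field F] {Q₁ Q₂ : Finset ℕ} (A : Matrix Q₁ Q₂ F) : ℕ :=
  sInf {r | ∃ V : Matrix Q₁ Q₂ F, DiagSupported V ∧ r = (A + V).rank}

/-- The rank of the restriction of `A` to `X₁ × X₂`. -/
noncomputable def subrank {F : Type*} [Field F] {Q₁ Q₂ : Finset ℕ} (A : Matrix Q₁ Q₂ F)
    (X₁ : Finset Q₁) (X₂ : Finset Q₂) : ℕ :=
  (A.submatrix (fun x : X₁ => (x : Q₁)) (fun y : X₂ => (y : Q₂))).rank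

/-- The disjoint rank: the maximum of the ranks of the restrictions of `A` to `X₁ × X₂`, over all
disjoint `X₁ ⊆ Q₁`, `X₂ ⊆ Q₂`. -/
noncomputable def drk {F : Type*} [Field F] {Q₁ Q₂ : Finset ℕ} (A : Matrix Q₁ Q₂ F) : ℕ :=
  sSup {r | ∃ (X₁ : Finset Q₁) (X₂ : Finset Q₂), (∀ x ∈ X₁, ∀ y ∈ X₂, (x : ℕ) ≠ (y : ℕ)) ∧
    r = subrank A X₁ X₂}

open Pool.Agent.Q216.ER in
/-- the two witnesses -/
theorem core {F : Type*} [Field F] {Q₁ Q₂ : Finset ℕ} (A : Matrix Q₁ Q₂ F) :
    ∃ (V : Matrix Q₁ Q₂ F) (X₁ : Finset Q₁) (X₂ : Finset Q₂), DiagSupported V ∧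
      (∀ x ∈ X₁, ∀ y ∈ X₂, (x : ℕ) ≠ (y : ℕ)) ∧ (A + V).rank ≤ 2 * subrank A X₁ X₂ := by
  classical
  let Q : Finset ℕ := Q₁ ∪ Q₂
  let emb₁ : Q₁ → Q := fun x => ⟨x, Finset.mem_union_left _ x.2⟩
  let emb₂ : Q₂ → Q := fun x => ⟨x, Finset.mem_union_right _ x.2⟩
  let e : Q₂ → (Q → F) := fun y => Pi.single (emb₂ y) 1
  let a : Q₂ → (Q → F) := fun y x => if h : (x : ℕ) ∈ Q₁ then A ⟨x, h⟩ y else 0
  have he : ∀ (y : Q₂) (x : Q), e y x = if (x : ℕ) = (y : ℕ) then 1 else 0 := by
    intro y x
    show (Pi.single (emb₂ y) 1 : Q → F) x = _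
    rw [Pi.single_apply]
    have : (x = emb₂ y) ↔ ((x : ℕ) = (y : ℕ)) := by
      rw [← Subtype.coe_inj]
    simp only [this]
  have hindep : ∀ c : Q₂ → F, ∑ i ∈ Finset.univ, c i • e i = 0 → ∀ i ∈ Finset.univ, c i = 0 := by
    intro c hc i _
    have h1 := congrFun hc (emb₂ i)
    rw [Finset.sum_apply, Finset.sum_eq_single i] at h1
    · rw [Pi.smul_apply, he, if_pos rfl, smul_eq_mul, mul_one] at h1
      exact h1
    · intro j _ hj
      rw [Pi.smul_apply, he, if_neg, smul_zero]
      intro h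
      exact hj (Subtype.ext h.symm)
    · intro h; exact absurd (Finset.mem_univ _) h
  obtain ⟨J, hJ, hmax⟩ := Finset.exists_max_image
    (Finset.univ.filter fun J : Finset Q₂ => IsM (k := F) e a J) Finset.card
    ⟨∅, by simp [IsM]⟩
  rw [Finset.mem_filter] at hJ
  obtain ⟨v, hv⟩ := star (F := F) (ι := Q₂) _ (Q → F) rfl e a J.card
    (fun J' hJ' => hmax J' (by simp [hJ'])) Finset.univ hindep
  let V : Matrix Q₁ Q₂ F := Matrix.of fun x y => if (x : ℕ) = (y : ℕ) then v y else 0
  refine ⟨V, Finset.univ.filter fun x : Q₁ => ∀ y ∈ J, (x : ℕ) ≠ (y : ℕ), J, ?_, ?_, ?_⟩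
  · intro x y hxy
    show (if (x : ℕ) = (y : ℕ) then v y else 0) = 0
    rw [if_neg hxy]
  · intro x hx y hy
    exact (Finset.mem_filter.1 hx).2 y hy
  · -- the rank of `A + V`
    have h1 : (A + V).rank ≤ 2 * J.card := by
      refine le_trans ?_ hv
      rw [Matrix.rank_eq_finrank_span_cols]
      have h2 : Submodule.span F (Set.range (A + V).col) ≤
          (Submodule.span F ((fun i => a i + v i • e i) '' ((Finset.univ : Finset Q₂) : Set Q₂))).map
            (LinearMap.funLeft F F emb₁) := by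
        rw [Submodule.span_le]
        rintro x ⟨y, rfl⟩
        refine ⟨a y + v y • e y, Submodule.subset_span ⟨y, by simp, rfl⟩, ?_⟩
        funext x
        rw [LinearMap.funLeft_apply, Pi.add_apply, Pi.smul_apply, he]
        show (if h : (x : ℕ) ∈ Q₁ then A ⟨x, h⟩ y else 0) + v y • (if (x : ℕ) = (y : ℕ) then 1 else 0)
          = A x y + (if (x : ℕ) = (y : ℕ) then v y else 0)
        rw [dif_pos x.2]
        congr 1
        split_ifs <;> simp
      refine (Submodule.finrank_mono h2).trans ?_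
      exact Submodule.finrank_map_le _ _
    have h3 : J.card ≤ subrank A (Finset.univ.filter fun x : Q₁ => ∀ y ∈ J, (x : ℕ) ≠ (y : ℕ)) J := by
      have hli := isM_iff.1 hJ.2
      rw [Fintype.linearIndependent_iff] at hli
      unfold subrank
      rw [← Matrix.rank_transpose]
      have h4 : LinearIndependent F (A.submatrix
          (fun x : (Finset.univ.filter fun x : Q₁ => ∀ y ∈ J, (x : ℕ) ≠ (y : ℕ) : Finset Q₁) =>
            (x : Q₁)) (fun y : J => (y : Q₂))).transpose.row := by
        rw [Fintype.linearIndependent_iff]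
        intro c hc i
        -- the combination of the columns
        have h5 := hli (Sum.elim
          (fun y : J => - ∑ z : J, c z * a z (emb₂ y)) c) (by
          rw [Fintype.sum_sum_type]
          simp only [Sum.elim_inl, Sum.elim_inr]
          funext x
          rw [Pi.add_apply, Finset.sum_apply, Finset.sum_apply, Pi.zero_apply]
          simp only [Pi.smul_apply, he, smul_eq_mul, mul_ite, mul_one, mul_zero]
          by_cases hx : ∃ y : J, (x : ℕ) = ((y : Q₂) : ℕ)
          · obtain ⟨y, hy⟩ := hx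
            rw [Finset.sum_eq_single y]
            · rw [if_pos hy]
              have : emb₂ y = x := Subtype.ext hy.symm
              rw [this]
              ring
            · intro z _ hz
              rw [if_neg]
              intro h
              exact hz (Subtype.ext (Subtype.ext (by rw [← h, hy])))
            · intro h; exact absurd (Finset.mem_univ _) h
          · push Not at hx
            rw [Finset.sum_eq_zero (fun y _ => if_neg (hx y)), zero_add]
            by_cases hx1 : (x : ℕ) ∈ Q₁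
            · have h6 := congrFun hc ⟨⟨x, hx1⟩, by
                rw [Finset.mem_filter]
                exact ⟨Finset.mem_univ _, fun y hy => hx ⟨y, hy⟩⟩⟩
              rw [Finset.sum_apply, Pi.zero_apply] at h6
              rw [← h6]
              refine Finset.sum_congr rfl fun z _ => ?_
              show c z * (if h : (x : ℕ) ∈ Q₁ then A ⟨x, h⟩ z else 0) = _
              rw [dif_pos hx1]
              rfl
            · refine Finset.sum_eq_zero fun z _ => ?_
              show c z * (if h : (x : ℕ) ∈ Q₁ then A ⟨x, h⟩ z else 0) = _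
              rw [dif_neg hx1, mul_zero])
        exact h5 (Sum.inr i)
      rw [h4.rank_matrix, Fintype.card_coe]
    omega

/-- Q1 of MP_852b03_co: `drk A ≥ erk A / 2`, for every field and every matrix. -/
theorem result (F : Type*) [Field F] (Q₁ Q₂ : Finset ℕ) (A : Matrix Q₁ Q₂ F) :
    (drk A : ℝ) ≥ 1 / 2 * (erk A : ℝ) := by
  obtain ⟨V, X₁, X₂, h1, h2, h3⟩ := core A
  have h4 : erk A ≤ (A + V).rank := Nat.sInf_le ⟨V, h1, rfl⟩
  have h5 : subrank A X₁ X₂ ≤ drk A := by
    refine le_csSup ⟨Fintype.card Q₂, ?_⟩ ⟨X₁, X₂, h2, rfl⟩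
    rintro r ⟨Y₁, Y₂, -, rfl⟩
    unfold subrank
    refine (Matrix.rank_le_card_width _).trans ?_
    rw [Fintype.card_coe]
    exact Finset.card_le_univ _
  have h6 : erk A ≤ 2 * drk A := by omega
  have h7 : (erk A : ℝ) ≤ 2 * (drk A : ℝ) := by exact_mod_cast h6
  linarith

end Pool.Agent.Results.MP_852b03_co.DisjointRank
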